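import Pool.Agent.H477.O.Stm6
import Pool.Agent.H643.P.PFL

set_option autoImplicit false

/-! Project Q (helper477), Q5: `S_QFL` from `S_QLOG`, `S_PFAR`. After `Pool/Agent/H643/P/PFL.lean`. -/

open Complex Filter Topology Metric Set

namespace Pool.Agent.H939.Q

open Pool.Agent.H477.O

/-- comparison of the sizes along a horizontal segment, exponentially decreasing bound -/
theorem log_norm_sub2 (f : ℂ → ℂ) (hf : Differentiable ℂ f) (z : ℂ) (t ℓ C m k : ℝ) (ht : 0 ≤ t)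
    (hk : 0 < k) (hm : 0 ≤ m)
    (h : ∀ s : ℝ, 0 ≤ s → s ≤ t →
      f (z + s) ≠ 0 ∧ ‖logDeriv f (z + s) - ℓ‖ ≤ m * Real.exp (-(k * s)) + C) :
    |Real.log ‖f (z + t)‖ - Real.log ‖f z‖ - ℓ * t| ≤ m / k + C * t := by
  have hder : ∀ s : ℝ, 0 ≤ s → s ≤ t →
      HasDerivAt (fun x : ℝ => Real.log ‖f (z + x)‖ - Real.log ‖f z‖ - ℓ * x)
        ((logDeriv f (z + s)).re - ℓ) s := by
    intro s h0 h1
    have h2 := ((H643.P.hasDerivAt_log_norm f hf z s (h s h0 h1).1).sub_const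
      (Real.log ‖f z‖)).sub ((hasDerivAt_id s).const_mul ℓ)
    rw [mul_one] at h2
    exact h2
  have hB : ∀ s : ℝ, HasDerivAt (fun x : ℝ => m / k * (1 - Real.exp (-(k * x))) + C * x)
      (m * Real.exp (-(k * s)) + C) s := by
    intro s
    have h1 : HasDerivAt (fun x : ℝ => Real.exp (-(k * x))) (Real.exp (-(k * s)) * (-(k * 1))) s :=
      (((hasDerivAt_id s).const_mul k).neg).exp
    have h2 := ((h1.const_sub 1).const_mul (m / k)).add ((hasDerivAt_id s).const_mul C)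
    refine h2.congr_deriv ?_
    have hk' : k ≠ 0 := hk.ne'
    field_simp
  have key := image_norm_le_of_norm_deriv_right_le_deriv_boundary
    (f := fun x : ℝ => Real.log ‖f (z + x)‖ - Real.log ‖f z‖ - ℓ * x)
    (f' := fun s : ℝ => (logDeriv f (z + s)).re - ℓ)
    (B := fun x : ℝ => m / k * (1 - Real.exp (-(k * x))) + C * x)
    (B' := fun s : ℝ => m * Real.exp (-(k * s)) + C) (a := 0) (b := t)
    (fun x hx => (hder x hx.1 hx.2).continuousAt.continuousWithinAt)
    (fun x hx => (hder x hx.1 hx.2.le).hasDerivWithinAt)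
    (by simp) hB
    (by
      intro x hx
      have h3 := Complex.abs_re_le_norm (logDeriv f (z + x) - ℓ)
      rw [Complex.sub_re, Complex.ofReal_re] at h3
      exact h3.trans (h x hx.1 hx.2.le).2)
  have h4 := key (right_mem_Icc.2 ht)
  rw [Real.norm_eq_abs] at h4
  refine h4.trans ?_
  have h5 : 0 < Real.exp (-(k * t)) := Real.exp_pos _
  have h6 : 0 ≤ m / k := by positivity
  nlinarith

theorem t_QFL (hlog : S_QLOG) (hfar : S_PFAR) : S_QFL := by
  intro a K j R V κ ha hκ hR hV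
  have hj : (0 : ℝ) ≤ j := Nat.cast_nonneg j
  obtain ⟨A₁, C, c, ℓ₁, hA₁, hC, hc, hℓ₁, h1⟩ := hlog a K j R V ha hR hV
  obtain ⟨K', ℓ₂, hK', hℓ₂, h2⟩ := hfar a K j 1 R V zero_le_one (by linarith) (by linarith)
  -- the constant `A`
  have hE : 0 < min (κ / (2 * C)) (κ * c / (4 * C)) := lt_min (by positivity) (by positivity)
  set E : ℝ := min (κ / (2 * C)) (κ * c / (4 * C)) with hEdef
  set A : ℝ := max A₁ (-Real.log E / c) with hA
  have hAA₁ : A₁ ≤ A := le_max_left _ _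
  have hA1 : 1 ≤ A := hA₁.trans hAA₁
  have hexpA : Real.exp (-(c * A)) ≤ E := by
    rw [← Real.le_log_iff_exp_le hE]
    have h3 : -Real.log E / c ≤ A := le_max_right _ _
    rw [div_le_iff₀ hc] at h3
    linarith
  have hCA1 : C * Real.exp (-(c * A)) ≤ κ / 2 := by
    have h3 : Real.exp (-(c * A)) ≤ κ / (2 * C) := hexpA.trans (min_le_left _ _)
    calc C * Real.exp (-(c * A)) ≤ C * (κ / (2 * C)) := mul_le_mul_of_nonneg_left h3 (by linarith)
      _ = κ / 2 := by field_simp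
  have hCA2 : C * Real.exp (-(c * A)) / c ≤ κ / 4 := by
    have h3 : Real.exp (-(c * A)) ≤ κ * c / (4 * C) := hexpA.trans (min_le_right _ _)
    calc C * Real.exp (-(c * A)) / c ≤ C * (κ * c / (4 * C)) / c := by
          gcongr
      _ = κ / 4 := by field_simp
  -- the growth condition
  have hQ : 0 < (2 * (2 * (j : ℝ) + K') + 4 * C * (a + j)) / κ := by positivity
  set Q : ℝ := (2 * (2 * (j : ℝ) + K') + 4 * C * (a + j)) / κ with hQdef
  have hev : ∀ᶠ x : ℝ in atTop, Q * Real.log x ^ 2 ≤ x := by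
    have h3 := (Real.isLittleO_pow_log_id_atTop (n := 2)).bound
      (c := Q⁻¹) (by positivity)
    filter_upwards [h3, eventually_ge_atTop (0 : ℝ)] with x hx hx0
    rw [Real.norm_of_nonneg (by positivity), id, Real.norm_of_nonneg hx0, inv_mul_eq_div,
      le_div_iff₀ hQ] at hx
    rw [mul_comm]
    exact hx
  obtain ⟨ℓ₃, hℓ₃⟩ := eventually_atTop.1 (hev.and (eventually_ge_atTop (2 * C / κ)))
  refine ⟨A, max (max ℓ₁ ℓ₂) ℓ₃, hA1,
    le_trans hℓ₁ (le_trans (le_max_left _ _) (le_max_left _ _)), ?_⟩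
  intro X M ℓ y hX hℓ δ hδA b hb0 hba hZF
  have l1 : ℓ₁ ≤ ℓ := le_trans (le_trans (le_max_left _ _) (le_max_left _ _)) hℓ
  have l2 : ℓ₂ ≤ ℓ := le_trans (le_trans (le_max_right _ _) (le_max_left _ _)) hℓ
  have l3 : ℓ₃ ≤ ℓ := le_trans (le_max_right _ _) hℓ
  obtain ⟨m1, m2⟩ := hℓ₃ ℓ l3
  have hℓ3 : 3 ≤ ℓ := le_trans hℓ₁ l1
  have hℓ1 : 1 ≤ ℓ := by linarith
  have hlogℓ : 1 ≤ Real.log ℓ := by
    rw [Real.le_log_iff_exp_le (by linarith)]
    have := Real.exp_one_lt_d9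
    linarith
  set L : ℝ := Real.log ℓ with hL
  have hδL : A ≤ δ * L := by
    rwa [div_le_iff₀ (by linarith)] at hδA
  have hδL1 : 1 ≤ δ * L := hA1.trans hδL
  have hδpos : 0 < δ := lt_of_lt_of_le (by positivity) hδA
  set e : ℝ := κ * δ with he
  have he0 : 0 < e := by positivity
  have m1' : (2 * (2 * (j : ℝ) + K') + 4 * C * (a + j)) * L ^ 2 ≤ κ * ℓ := by
    have h5 := mul_le_mul_of_nonneg_left m1 hκ.le
    refine le_trans (le_of_eq ?_) h5
    rw [hQdef]
    field_simp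
  have h6 : κ * ℓ ≤ e * L * ℓ := by
    have h8 : κ * ℓ * 1 ≤ κ * ℓ * (δ * L) := mul_le_mul_of_nonneg_left hδL1 (by positivity)
    rw [he]
    linarith
  have haj : 0 ≤ C * (a + j) := by positivity
  -- the size of `e ℓ`
  have m3 : (2 * (j : ℝ) + K') * L ≤ e / 2 * ℓ := by
    have h9 : (2 * (j : ℝ) + K') * L * (2 * L) ≤ e / 2 * ℓ * (2 * L) := by
      have h10 : 0 ≤ 4 * C * (a + j) * L ^ 2 := by positivity
      nlinarith
    exact le_of_mul_le_mul_right h9 (by linarith)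
  have m5 : C * (a + j) ≤ e / 4 * ℓ := by
    have h9 : C * (a + j) * (4 * L) ≤ e / 4 * ℓ * (4 * L) := by
      have h10 : 0 ≤ 2 * (2 * (j : ℝ) + K') * L ^ 2 := by positivity
      have h11 : C * (a + j) * L ≤ C * (a + j) * L ^ 2 := by
        have : L ≤ L ^ 2 := by nlinarith
        exact mul_le_mul_of_nonneg_left this haj
      nlinarith
    exact le_of_mul_le_mul_right h9 (by linarith)
  have m4 : (j : ℝ) * Real.log (2 * ℓ) + K' ≤ e / 2 * ℓ := by
    refine le_trans ?_ m3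
    have h4 : Real.log (2 * ℓ) ≤ 2 * L := by
      rw [Real.log_mul (by norm_num) (by linarith)]
      have : Real.log 2 ≤ Real.log ℓ := Real.log_le_log (by norm_num) (by linarith)
      linarith
    have h5 : (j : ℝ) * Real.log (2 * ℓ) ≤ j * (2 * L) := mul_le_mul_of_nonneg_left h4 hj
    have h6 : K' * 1 ≤ K' * L := mul_le_mul_of_nonneg_left hlogℓ (by linarith)
    nlinarith
  have l5 : K' ≤ e / 2 * ℓ := by
    have h4 : 0 ≤ (j : ℝ) * Real.log (2 * ℓ) := mul_nonneg hj (Real.log_nonneg (by linarith))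
    linarith
  have l6 : (2 * ℓ) ^ j * Real.exp K' ≤ Real.exp (e / 2 * ℓ) := by
    have h4 : (2 * ℓ) ^ j = Real.exp ((j : ℝ) * Real.log (2 * ℓ)) := by
      rw [Real.exp_nat_mul, Real.exp_log (by linarith)]
    rw [h4, ← Real.exp_add, Real.exp_le_exp]
    exact m4
  have hLog := h1 X M ℓ y hX l1 b hb0 hba hZF
  have hd : Differentiable ℂ (iteratedDeriv j X) :=
    (hX.diff.contDiff (n := (j + 1 : ℕ))).differentiable_iteratedDeriv j (by exact_mod_cast Nat.lt_succ_self j)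
  set f := iteratedDeriv j X with hf
  intro z hz1 hz2 hz3
  have hA₁δ : A₁ / L ≤ δ := le_trans (div_le_div_of_nonneg_right hAA₁ (by linarith)) hδA
  obtain ⟨hz0, hzl⟩ := hLog z (by linarith) hz2 hz3
  -- the exponential at `z`
  have hu : δ ≤ z.re - 1 / 2 - b := by linarith
  have huL : A ≤ (z.re - 1 / 2 - b) * L :=
    hδL.trans (mul_le_mul_of_nonneg_right hu (by linarith))
  have hexpu : Real.exp (-(c * (z.re - 1 / 2 - b) * L)) ≤ Real.exp (-(c * A)) := by
    rw [Real.exp_le_exp]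
    have := mul_le_mul_of_nonneg_left huL hc.le
    linarith
  have hCu : C * ℓ * Real.exp (-(c * (z.re - 1 / 2 - b) * L)) ≤
      C * Real.exp (-(c * A)) * ℓ := by
    calc C * ℓ * Real.exp (-(c * (z.re - 1 / 2 - b) * L)) ≤ C * ℓ * Real.exp (-(c * A)) :=
          mul_le_mul_of_nonneg_left hexpu (by positivity)
      _ = _ := by ring
  refine ⟨hz0, hzl.trans ?_, ?_⟩
  · have h3 : C * Real.exp (-(c * A)) * ℓ ≤ κ / 2 * ℓ :=
      mul_le_mul_of_nonneg_right hCA1 (by linarith)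
    have h4 : C ≤ κ / 2 * ℓ := by
      have m2' := (div_le_iff₀ hκ).1 m2
      linarith
    linarith
  set t : ℝ := max 0 (1 / 2 + a + j - z.re) with ht
  have ht0 : 0 ≤ t := le_max_left _ _
  have ht1 : 1 / 2 + a + j - z.re ≤ t := le_max_right _ _
  have ht2 : t ≤ a + j := max_le (by linarith) (by linarith)
  have ht3 : z.re + t ≤ 1 / 2 + R := by
    rcases max_cases 0 (1 / 2 + a + j - z.re) with ⟨h, -⟩ | ⟨h, -⟩
    · rw [← ht] at h; rw [h]; linarith
    · rw [← ht] at h; rw [h]; linarith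
  have hkL : 0 < c * L := by positivity
  have hseg : ∀ s : ℝ, 0 ≤ s → s ≤ t → f (z + s) ≠ 0 ∧ ‖logDeriv f (z + s) - ℓ‖ ≤
      C * ℓ * Real.exp (-(c * (z.re - 1 / 2 - b) * L)) * Real.exp (-(c * L * s)) + C := by
    intro s hs0 hs1
    have hre : (z + s).re = z.re + s := by simp
    have him : (z + s).im = z.im := by simp
    obtain ⟨h3, h4⟩ := hLog (z + s) (by rw [hre]; linarith) (by rw [hre]; linarith)
      (by rw [him]; exact hz3)
    refine ⟨h3, h4.trans (le_of_eq ?_)⟩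
    rw [hre, mul_assoc (C * ℓ), ← Real.exp_add]
    congr 3
    ring
  have hkey := log_norm_sub2 f hd z t ℓ C _ (c * L) ht0 hkL (by positivity) hseg
  have hkey2 : C * ℓ * Real.exp (-(c * (z.re - 1 / 2 - b) * L)) / (c * L) + C * t ≤ e / 2 * ℓ := by
    have h3 : C * ℓ * Real.exp (-(c * (z.re - 1 / 2 - b) * L)) / (c * L) ≤ e / 4 * ℓ := by
      calc C * ℓ * Real.exp (-(c * (z.re - 1 / 2 - b) * L)) / (c * L)
          ≤ C * Real.exp (-(c * A)) * ℓ / (c * L) := div_le_div_of_nonneg_right hCu hkL.le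
        _ = C * Real.exp (-(c * A)) / c * (ℓ / L) := by
          have : L ≠ 0 := by linarith
          have hc' : c ≠ 0 := hc.ne'
          field_simp
        _ ≤ κ / 4 * (ℓ / L) := mul_le_mul_of_nonneg_right hCA2 (by positivity)
        _ ≤ κ / 4 * (δ * ℓ) := by
          refine mul_le_mul_of_nonneg_left ?_ (by positivity)
          rw [div_le_iff₀ (by linarith)]
          have := mul_le_mul_of_nonneg_right hδL1 (by linarith : (0 : ℝ) ≤ ℓ)
          linarith
        _ = e / 4 * ℓ := by rw [he]; ring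
    have h4 : C * t ≤ e / 4 * ℓ := (mul_le_mul_of_nonneg_left ht2 (by linarith)).trans m5
    linarith
  have hkey := hkey.trans hkey2
  have hre : (z + t).re = z.re + t := by simp
  have him : (z + t).im = z.im := by simp
  obtain ⟨g0, -, g1, g2⟩ := h2 X M ℓ y hX l2 (z + t) (by rw [hre]; linarith) (by rw [hre]; exact ht3)
    (by rw [him]; exact hz3)
  rw [hre] at g1 g2
  have hM := hX.hM
  have n0 : 0 < ‖f z‖ := norm_pos_iff.2 hz0
  have n1 : 0 < ‖f (z + t)‖ := norm_pos_iff.2 g0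
  -- logarithms
  have k1 : Real.log M + (ℓ * (z.re + t - 1 / 2) - K') ≤ Real.log ‖f (z + t)‖ := by
    rw [← Real.log_exp (ℓ * (z.re + t - 1 / 2) - K'), ← Real.log_mul hM.ne' (Real.exp_pos _).ne']
    exact Real.log_le_log (by positivity) g1
  have k2 : Real.log ‖f (z + t)‖ ≤ Real.log M + (ℓ * (z.re + t - 1 / 2) + e / 2 * ℓ) := by
    rw [← Real.log_exp (ℓ * (z.re + t - 1 / 2) + e / 2 * ℓ), ← Real.log_mul hM.ne' (Real.exp_pos _).ne']
    refine Real.log_le_log n1 (g2.trans ?_)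
    rw [Real.exp_add, Real.exp_add, mul_assoc]
    refine mul_le_mul_of_nonneg_left ?_ hM.le
    calc (2 * ℓ) ^ j * (Real.exp (ℓ * (z.re + t - 1 / 2)) * Real.exp K')
        = Real.exp (ℓ * (z.re + t - 1 / 2)) * ((2 * ℓ) ^ j * Real.exp K') := by ring
      _ ≤ _ := mul_le_mul_of_nonneg_left l6 (Real.exp_pos _).le
  rw [abs_le] at hkey
  obtain ⟨q1, q2⟩ := hkey
  have hpos : 0 < e * ℓ := by positivity
  constructor
  · have r1 : Real.log M + ℓ * (z.re - 1 / 2 - e) ≤ Real.log ‖f z‖ := by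
      linarith
    rw [← Real.exp_log hM, ← Real.exp_add]
    calc _ ≤ Real.exp (Real.log ‖f z‖) := Real.exp_le_exp.2 r1
      _ = _ := Real.exp_log n0
  · have r2 : Real.log ‖f z‖ ≤ Real.log M + ℓ * (z.re - 1 / 2 + e) := by
      linarith
    calc ‖f z‖ = Real.exp (Real.log ‖f z‖) := (Real.exp_log n0).symm
      _ ≤ Real.exp (Real.log M + ℓ * (z.re - 1 / 2 + e)) := Real.exp_le_exp.2 r2
      _ = _ := by rw [Real.exp_add, Real.exp_log hM]

end Pool.Agent.H939.Q
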